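import Mathlib

set_option autoImplicit false

namespace Pool.Agent.Results.MP_3d7919_co.NoIslandOfWeight14

/-- No three of the points `p i` (with different indices) lie on a line, and the points are
different. -/
def InGeneralPosition {n : ℕ} (p : Fin n → EuclideanSpace ℝ (Fin 2)) : Prop :=
  Function.Injective p ∧ ∀ i j k : Fin n, i ≠ j → j ≠ k → i ≠ k →
    ¬ Collinear ℝ ({p i, p j, p k} : Set (EuclideanSpace ℝ (Fin 2)))

/-- The set of the points `p i`, `i ∈ I`, is an island: it is not empty, and it consists of the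
points `p i` which lie in some convex set. -/
def IsIsland {n : ℕ} (p : Fin n → EuclideanSpace ℝ (Fin 2)) (I : Finset (Fin n)) : Prop :=
  I.Nonempty ∧ ∃ S : Set (EuclideanSpace ℝ (Fin 2)), Convex ℝ S ∧ ∀ i : Fin n, p i ∈ S ↔ i ∈ I

/-- The weight of a set of points, if `p i` has the label `i + 1`. -/
def weight {n : ℕ} (I : Finset (Fin n)) : ℕ := ∑ i ∈ I, (i.val + 1)

private def cx : Fin 7 → ℤ := ![5, 5, 4, 6, 0, 3, 2]
private def cy : Fin 7 → ℤ := ![5, 1, 4, 0, 3, 2, 3]

private def dt (i j k : Fin 7) : ℤ :=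
  (cx j - cx i) * (cy k - cy i) - (cy j - cy i) * (cx k - cx i)

private noncomputable def pt (i : Fin 7) : EuclideanSpace ℝ (Fin 2) :=
  !₂[(cx i : ℝ), (cy i : ℝ)]

private lemma pt_zero (i : Fin 7) : pt i 0 = (cx i : ℝ) := by simp [pt]
private lemma pt_one (i : Fin 7) : pt i 1 = (cy i : ℝ) := by simp [pt]

private lemma dt_ne : ∀ i j k : Fin 7, i ≠ j → j ≠ k → i ≠ k → dt i j k ≠ 0 := by
  decide +kernel

/-- Orientation determinant of three points. -/
private def od (a b c : EuclideanSpace ℝ (Fin 2)) : ℝ :=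
  (b 0 - a 0) * (c 1 - a 1) - (b 1 - a 1) * (c 0 - a 0)

private lemma od_pt (i j k : Fin 7) : od (pt i) (pt j) (pt k) = ((dt i j k : ℤ) : ℝ) := by
  unfold od dt
  simp only [pt_zero, pt_one]
  push_cast
  ring

private lemma od_zero_of_collinear {a b c : EuclideanSpace ℝ (Fin 2)}
    (hc : Collinear ℝ ({a, b, c} : Set (EuclideanSpace ℝ (Fin 2)))) : od a b c = 0 := by
  rw [collinear_iff_of_mem (p₀ := a) (by simp)] at hc
  obtain ⟨v, hv⟩ := hc
  obtain ⟨r, hr⟩ := hv b (by simp)
  obtain ⟨t, ht⟩ := hv c (by simp)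
  have b0 : b 0 = r * v 0 + a 0 := by
    have := congrArg (fun w : EuclideanSpace ℝ (Fin 2) => w 0) hr
    simpa using this
  have b1 : b 1 = r * v 1 + a 1 := by
    have := congrArg (fun w : EuclideanSpace ℝ (Fin 2) => w 1) hr
    simpa using this
  have c0 : c 0 = t * v 0 + a 0 := by
    have := congrArg (fun w : EuclideanSpace ℝ (Fin 2) => w 0) ht
    simpa using this
  have c1 : c 1 = t * v 1 + a 1 := by
    have := congrArg (fun w : EuclideanSpace ℝ (Fin 2) => w 1) ht
    simpa using this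
  unfold od
  rw [b0, b1, c0, c1]
  ring

/-- A point strictly inside the triangle of three points of a convex set lies in that set. -/
private lemma mem_of_inside {S : Set (EuclideanSpace ℝ (Fin 2))} (hS : Convex ℝ S)
    (a b c d : EuclideanSpace ℝ (Fin 2)) (ha : a ∈ S) (hb : b ∈ S) (hc : c ∈ S)
    (h1 : 0 < od b c d) (h2 : 0 < od c a d) (h3 : 0 < od a b d) : d ∈ S := by
  set x : ℝ := od b c d with hx
  set y : ℝ := od c a d with hy
  set z : ℝ := od a b d with hz
  have hpos : 0 < x + y + z := by positivity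
  have hne : x + y + z ≠ 0 := hpos.ne'
  have hcomb : d = (x / (x + y + z)) • a + (y / (x + y + z)) • b
      + (z / (x + y + z)) • c := by
    ext l
    fin_cases l
    · simp only [Fin.zero_eta, Fin.isValue, PiLp.add_apply, PiLp.smul_apply, smul_eq_mul]
      field_simp
      rw [hx, hy, hz]
      unfold od
      ring
    · simp only [Fin.mk_one, Fin.isValue, PiLp.add_apply, PiLp.smul_apply, smul_eq_mul]
      field_simp
      rw [hx, hy, hz]
      unfold od
      ring
  rw [hcomb]
  have hsum : x / (x + y + z) + y / (x + y + z) + z / (x + y + z) = 1 := by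
    field_simp
  have := hS.sum_mem (t := (Finset.univ : Finset (Fin 3)))
    (w := ![x / (x + y + z), y / (x + y + z), z / (x + y + z)])
    (z := ![a, b, c]) ?_ ?_ ?_
  · simpa [Fin.sum_univ_three] using this
  · intro i _
    fin_cases i <;> simp <;> positivity
  · simpa [Fin.sum_univ_three] using hsum
  · intro i _
    fin_cases i <;> simp [ha, hb, hc]

/-- The eight blocking triangles with a point inside. -/
private def wit : List (Fin 7 × Fin 7 × Fin 7 × Fin 7) :=
  [(1, 2, 4, 5), (0, 5, 3, 1), (0, 4, 1, 2), (2, 4, 5, 6), (0, 6, 1, 2),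
        (2, 6, 3, 1), (1, 6, 4, 5), (0, 6, 5, 2)]

/-- Every subset of weight `14` has three members whose triangle contains a non-member. -/
private lemma blocked : ∀ s : Finset (Fin 7), ∑ i ∈ s, (i.val + 1) = 14 →
    ∃ w ∈ wit, w.1 ∈ s ∧ w.2.1 ∈ s ∧ w.2.2.1 ∈ s ∧ w.2.2.2 ∉ s := by
  decide +kernel

private lemma wit_pos : ∀ w ∈ wit, 0 < dt w.2.1 w.2.2.1 w.2.2.2 ∧ 0 < dt w.2.2.1 w.1 w.2.2.2 ∧
    0 < dt w.1 w.2.1 w.2.2.2 := by
  decide +kernel

private lemma cont_od {n : ℕ} (i j k : Fin n) :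
    Continuous fun p : Fin n → EuclideanSpace ℝ (Fin 2) => od (p i) (p j) (p k) := by
  unfold od
  fun_prop

/-- There is a nonempty open set of labelled configurations of seven points in the plane, which
contains one with integer coordinates between 0 and 6, such that all of them are in general
position and have no island of weight 14. -/
theorem result :
    ∃ U : Set (Fin 7 → EuclideanSpace ℝ (Fin 2)), IsOpen U ∧
      (∃ p ∈ U, ∀ i c, ∃ a : ℕ, a ≤ 6 ∧ p i c = a) ∧
      ∀ p ∈ U, InGeneralPosition p ∧ ∀ I : Finset (Fin 7), IsIsland p I → weight I ≠ 14 := by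
  refine ⟨(⋂ i : Fin 7, ⋂ j : Fin 7, ⋂ k : Fin 7,
      {p | i ≠ j → j ≠ k → i ≠ k → od (p i) (p j) (p k) ≠ 0}) ∩
    (⋂ w ∈ {w | w ∈ wit}, {p | 0 < od (p w.2.1) (p w.2.2.1) (p w.2.2.2) ∧
      0 < od (p w.2.2.1) (p w.1) (p w.2.2.2) ∧ 0 < od (p w.1) (p w.2.1) (p w.2.2.2)}),
    ?_, ⟨pt, ⟨?_, ?_⟩, ?_⟩, ?_⟩
  · refine IsOpen.inter ?_ ?_
    · refine isOpen_iInter_of_finite fun i => isOpen_iInter_of_finite fun j =>
        isOpen_iInter_of_finite fun k => ?_
      by_cases h : i ≠ j ∧ j ≠ k ∧ i ≠ k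
      · have : {p : Fin 7 → EuclideanSpace ℝ (Fin 2) |
            i ≠ j → j ≠ k → i ≠ k → od (p i) (p j) (p k) ≠ 0} =
            {p | od (p i) (p j) (p k) ≠ 0} := by
          ext p
          simp only [Set.mem_ofPred_eq]
          exact ⟨fun h' => h' h.1 h.2.1 h.2.2, fun h' _ _ _ => h'⟩
        rw [this]
        exact isOpen_ne_fun (cont_od i j k) continuous_const
      · have : {p : Fin 7 → EuclideanSpace ℝ (Fin 2) |
            i ≠ j → j ≠ k → i ≠ k → od (p i) (p j) (p k) ≠ 0} = Set.univ := by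
          ext p
          simp only [Set.mem_ofPred_eq, Set.mem_univ, iff_true]
          intro h1 h2 h3
          exact absurd ⟨h1, h2, h3⟩ h
        rw [this]
        exact isOpen_univ
    · refine Set.Finite.isOpen_biInter (Set.toFinite _) fun w _ => ?_
      exact ((isOpen_lt continuous_const (cont_od _ _ _)).inter
        ((isOpen_lt continuous_const (cont_od _ _ _)).inter
          (isOpen_lt continuous_const (cont_od _ _ _))))
  · simp only [Set.mem_iInter, Set.mem_ofPred_eq]
    intro i j k h1 h2 h3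
    rw [od_pt]
    exact_mod_cast dt_ne i j k h1 h2 h3
  · simp only [Set.mem_iInter, Set.mem_ofPred_eq]
    intro w hw
    obtain ⟨h1, h2, h3⟩ := wit_pos w hw
    rw [od_pt, od_pt, od_pt]
    exact ⟨by exact_mod_cast h1, by exact_mod_cast h2, by exact_mod_cast h3⟩
  · intro i c
    have key : ∀ i : Fin 7, (0 ≤ cx i ∧ cx i ≤ 6) ∧ (0 ≤ cy i ∧ cy i ≤ 6) := by decide
    obtain ⟨⟨h1, h2⟩, h3, h4⟩ := key i
    fin_cases c
    · refine ⟨(cx i).toNat, by omega, ?_⟩
      have : ((cx i).toNat : ℤ) = cx i := Int.toNat_of_nonneg h1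
      simp only [Fin.zero_eta, Fin.isValue, pt_zero]
      exact_mod_cast this.symm
    · refine ⟨(cy i).toNat, by omega, ?_⟩
      have : ((cy i).toNat : ℤ) = cy i := Int.toNat_of_nonneg h3
      simp only [Fin.mk_one, Fin.isValue, pt_one]
      exact_mod_cast this.symm
  · rintro p ⟨hp1, hp2⟩
    simp only [Set.mem_iInter, Set.mem_ofPred_eq] at hp1 hp2
    refine ⟨⟨?_, ?_⟩, ?_⟩
    · intro i j hij
      by_contra hne
      have key : ∀ i j : Fin 7, ∃ k : Fin 7, j ≠ k ∧ i ≠ k := by decide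
      obtain ⟨k, hk1, hk2⟩ := key i j
      apply hp1 i j k hne hk1 hk2
      unfold od
      rw [hij]
      ring
    · intro i j k h1 h2 h3 hc
      exact hp1 i j k h1 h2 h3 (od_zero_of_collinear hc)
    · rintro I ⟨-, S, hS, hmem⟩ hw
      obtain ⟨w, hw', h1, h2, h3, h4⟩ := blocked I hw
      obtain ⟨h5, h6, h7⟩ := hp2 w hw'
      exact h4 ((hmem _).1 (mem_of_inside hS _ _ _ _ ((hmem _).2 h1) ((hmem _).2 h2)
        ((hmem _).2 h3) h5 h6 h7))

end Pool.Agent.Results.MP_3d7919_co.NoIslandOfWeight14
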